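import Mathlib
import Pool.Agent.H482.PP.Mu

/-! Products of `k` primes in a residue class: the exact formula and the error term. -/

set_option autoImplicit false

namespace Pool.Agent.H482.PP2

open Finset Real

open Pool.Agent.H482.WT

open Classical in
/-- the weighted number of the `k`-tuples of primes of `P` with product `a` modulo `q` -/
noncomputable def Nk (q k : ℕ) (P : Finset ℕ) (a : (ZMod q)ˣ) : ℝ :=
  ∑ w ∈ (Fintype.piFinset (fun _ : Fin k => P)).filter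
    (fun w => ((∏ i, w i : ℕ) : ZMod q) = a), ∏ i, 1 / (w i : ℝ)

theorem orx {q : ℕ} [NeZero q] (P : Finset ℕ) (k : ℕ) (a : (ZMod q)ˣ) :
    ∑ χ : DirichletCharacter ℂ q, χ⁻¹ (a : ZMod q) * (∑ p ∈ P, χ (p : ZMod q) / p) ^ k =
      (Nat.totient q : ℂ) * (Nk q k P a : ℂ) := by
  classical
  have e : ∀ χ : DirichletCharacter ℂ q,
      χ⁻¹ (a : ZMod q) * (∑ p ∈ P, χ (p : ZMod q) / p) ^ k =
      ∑ w ∈ Fintype.piFinset (fun _ : Fin k => P), (∏ i, 1 / (w i : ℂ)) *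
        (χ (a : ZMod q)⁻¹ * χ ((∏ i, w i : ℕ) : ZMod q)) := by
    intro χ
    have e1 : (∑ p ∈ P, χ (p : ZMod q) / p) ^ k =
        ∑ w ∈ Fintype.piFinset (fun _ : Fin k => P), ∏ i, (χ (w i : ZMod q) / (w i : ℂ)) := by
      have e3 := prod_univ_sum (fun _ : Fin k => P) (fun _ p => χ (p : ZMod q) / (p : ℂ))
      rw [prod_const, card_univ, Fintype.card_fin] at e3
      exact e3
    have e2 : χ⁻¹ (a : ZMod q) = χ (a : ZMod q)⁻¹ := by
      rw [MulChar.inv_apply, Ring.inverse_unit, ZMod.inv_coe_unit]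
    rw [e1, mul_sum, e2]
    refine sum_congr rfl fun w _ => ?_
    rw [prod_div_distrib, Nat.cast_prod, map_prod, prod_div_distrib, prod_const_one]
    ring
  rw [sum_congr rfl fun χ _ => e χ, sum_comm]
  have e4 : ∀ w : Fin k → ℕ, ∑ χ : DirichletCharacter ℂ q, (∏ i, 1 / (w i : ℂ)) *
      (χ (a : ZMod q)⁻¹ * χ ((∏ i, w i : ℕ) : ZMod q)) =
      if ((∏ i, w i : ℕ) : ZMod q) = a then (Nat.totient q : ℂ) * ∏ i, 1 / (w i : ℂ) else 0 := by
    intro w
    rw [← mul_sum, DirichletCharacter.sum_char_inv_mul_char_eq ℂ a.isUnit]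
    by_cases h : ((∏ i, w i : ℕ) : ZMod q) = a
    · rw [if_pos h, if_pos h.symm]; ring
    · rw [if_neg h, if_neg (fun h' => h h'.symm), mul_zero]
  rw [sum_congr rfl fun w _ => e4 w, ← sum_filter, ← mul_sum]
  unfold Nk
  push_cast
  rfl

/-- the error term -/
theorem ox_bound {q : ℕ} [NeZero q] (P : Finset ℕ) (hP : ∀ p ∈ P, p.Coprime q) (k : ℕ)
    (a : (ZMod q)ˣ) :
    |(Nat.totient q : ℝ) * Nk q k P a - wt P ^ k| ≤
      ∑ χ ∈ (univ : Finset (DirichletCharacter ℂ q)).erase 1,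
        ‖∑ p ∈ P, χ (p : ZMod q) / p‖ ^ k := by
  classical
  have h1 := orx P k a
  rw [← add_sum_erase _ _ (mem_univ (1 : DirichletCharacter ℂ q))] at h1
  have h2 : ∑ p ∈ P, (1 : DirichletCharacter ℂ q) (p : ZMod q) / (p : ℂ) = ((wt P : ℝ) : ℂ) := by
    unfold wt
    push_cast
    apply sum_congr rfl
    intro p hp
    rw [MulChar.one_apply ((ZMod.isUnit_iff_coprime p q).2 (hP p hp))]
  have h3 : (1 : DirichletCharacter ℂ q)⁻¹ (a : ZMod q) = 1 := by
    rw [inv_one, MulChar.one_apply a.isUnit]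
  rw [h2, h3, one_mul] at h1
  have h4 : (((Nat.totient q : ℝ) * Nk q k P a - wt P ^ k : ℝ) : ℂ) =
      ∑ χ ∈ (univ : Finset (DirichletCharacter ℂ q)).erase 1, χ⁻¹ (a : ZMod q) *
        (∑ p ∈ P, χ (p : ZMod q) / p) ^ k := by
    push_cast
    rw [← h1]
    ring
  rw [← Real.norm_eq_abs, ← Complex.norm_real, h4]
  refine (norm_sum_le _ _).trans (sum_le_sum fun χ _ => ?_)
  rw [norm_mul, norm_pow]
  calc ‖χ⁻¹ (a : ZMod q)‖ * ‖∑ p ∈ P, χ (p : ZMod q) / p‖ ^ k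
      ≤ 1 * ‖∑ p ∈ P, χ (p : ZMod q) / p‖ ^ k :=
        mul_le_mul_of_nonneg_right (DirichletCharacter.norm_le_one _ _) (by positivity)
    _ = _ := one_mul _

/-- the error term from a bound for the sums and for the moment -/
theorem err_bound {q : ℕ} [NeZero q] (P : Finset ℕ) (hP : ∀ p ∈ P, p.Coprime q) (k m : ℕ)
    (a : (ZMod q)ˣ) (B τ : ℝ) (hτ : 0 ≤ τ) (hk : 2 * m ≤ k)
    (hB : ∑ χ : DirichletCharacter ℂ q, ‖∑ p ∈ P, χ (p : ZMod q) / p‖ ^ (2 * m) ≤ B)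
    (hχ : ∀ χ : DirichletCharacter ℂ q, χ ≠ 1 → ‖∑ p ∈ P, χ (p : ZMod q) / p‖ ≤ τ) :
    |(Nat.totient q : ℝ) * Nk q k P a - wt P ^ k| ≤ τ ^ (k - 2 * m) * B := by
  classical
  refine (ox_bound P hP k a).trans ?_
  calc ∑ χ ∈ (univ : Finset (DirichletCharacter ℂ q)).erase 1,
        ‖∑ p ∈ P, χ (p : ZMod q) / p‖ ^ k
      ≤ ∑ χ ∈ (univ : Finset (DirichletCharacter ℂ q)).erase 1,
        τ ^ (k - 2 * m) * ‖∑ p ∈ P, χ (p : ZMod q) / p‖ ^ (2 * m) := by
        apply sum_le_sum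
        intro χ h
        rw [mem_erase] at h
        calc ‖∑ p ∈ P, χ (p : ZMod q) / p‖ ^ k =
            ‖∑ p ∈ P, χ (p : ZMod q) / p‖ ^ (k - 2 * m) *
              ‖∑ p ∈ P, χ (p : ZMod q) / p‖ ^ (2 * m) := by
              rw [← pow_add]
              congr 1
              omega
          _ ≤ _ := mul_le_mul_of_nonneg_right
              (pow_le_pow_left₀ (norm_nonneg _) (hχ χ h.1) _) (by positivity)
    _ = τ ^ (k - 2 * m) * ∑ χ ∈ (univ : Finset (DirichletCharacter ℂ q)).erase 1,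
        ‖∑ p ∈ P, χ (p : ZMod q) / p‖ ^ (2 * m) := by rw [mul_sum]
    _ ≤ τ ^ (k - 2 * m) * B := by
        apply mul_le_mul_of_nonneg_left _ (by positivity)
        refine le_trans ?_ hB
        exact sum_le_sum_of_subset_of_nonneg (erase_subset _ _) fun _ _ _ => by positivity

end Pool.Agent.H482.PP2
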