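import Mathlib
import Pool.Agent.H482.PP2.Ox
import Pool.Agent.H482.PP.Fin
import Pool.Agent.H482.WT.Up
import Pool.Agent.H482.WT.Mom

/-! Products of exactly `k` primes of a prescribed set in all classes, for almost all moduli. -/

set_option autoImplicit false

namespace Pool.Agent.H482.PP2

open Finset Real

open Pool.Agent.H482.WT Pool.Agent.H482.PP

/-- modulus one -/
theorem mod_one (P : Finset ℕ) (k : ℕ) (a : (ZMod 1)ˣ) :
    |(Nat.totient 1 : ℝ) * Nk 1 k P a - wt P ^ k| ≤ 0 := by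
  classical
  refine (ox_bound P (fun p _ => Nat.coprime_one_right p) k a).trans (le_of_eq ?_)
  apply sum_eq_zero
  intro χ hχ
  rw [mem_erase] at hχ
  exact absurd (Subsingleton.elim χ 1) hχ.1

/-- the final inequality -/
theorem fin_ineq {Z η : ℝ} (hZ : 1 ≤ Z) (hη : 0 < η) (hη1 : η ≤ 1) {m k : ℕ}
    (hk : 4 * m ≤ k) :
    (2 * (η ^ 2 / (32 * Z ^ 2))) ^ (k - 2 * m) * Z ^ (4 * m) ≤ η ^ k := by
  have hZ0 : 0 < Z := by linarith
  set τ : ℝ := 2 * (η ^ 2 / (32 * Z ^ 2)) with hτ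
  have hτ0 : 0 < τ := by positivity
  have hτ1 : τ ≤ 1 := by
    rw [hτ]
    have h1 : η ^ 2 ≤ 1 := by nlinarith
    have h2 : (1 : ℝ) ≤ Z ^ 2 := by nlinarith
    rw [← mul_div_assoc, div_le_one (by positivity)]
    linarith
  have h1 : ((τ ^ (k - 2 * m)) * Z ^ (4 * m)) ^ 2 ≤ (η ^ k) ^ 2 := by
    have e1 : (τ ^ (k - 2 * m)) ^ 2 ≤ τ ^ k := by
      rw [← pow_mul]
      exact pow_le_pow_of_le_one hτ0.le hτ1 (by omega)
    have e2 : (Z ^ (4 * m)) ^ 2 ≤ (Z ^ 2) ^ k := by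
      rw [← pow_mul, ← pow_mul]
      exact pow_le_pow_right₀ hZ (by omega)
    have e3 : τ * Z ^ 2 = η ^ 2 / 16 := by
      rw [hτ]
      field_simp
      ring
    calc ((τ ^ (k - 2 * m)) * Z ^ (4 * m)) ^ 2 = (τ ^ (k - 2 * m)) ^ 2 * (Z ^ (4 * m)) ^ 2 :=
          mul_pow _ _ _
      _ ≤ τ ^ k * (Z ^ 2) ^ k := mul_le_mul e1 e2 (by positivity) (by positivity)
      _ = (η ^ 2 / 16) ^ k := by rw [← mul_pow, e3]
      _ ≤ (η ^ 2) ^ k := by
          apply pow_le_pow_left₀ (by positivity)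
          have : 0 ≤ η ^ 2 := by positivity
          linarith
      _ = _ := by rw [← pow_mul, ← pow_mul, mul_comm 2 k]
  exact (pow_le_pow_iff_left₀ (by positivity) (by positivity) (by norm_num)).1 h1

theorem num_dv {θ η C1 u K Z : ℝ} (hθ : 0 < θ) (hη : 0 < η) (_hC : 0 < C1) (hu : 0 < u) (hK : 0 < K)
    (hZ : 0 < Z) (hZu : Z ≤ C1 * (C1 * u)) (hKl : 64 * C1 ^ 4 / (θ * η ^ 2) ≤ K) :
    2 / (θ * K * u ^ 2) ≤ η ^ 2 / (32 * Z ^ 2) := by
  rw [div_le_div_iff₀ (by positivity) (by positivity)]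
  rw [div_le_iff₀ (by positivity)] at hKl
  have h5 : Z ^ 2 ≤ (C1 * (C1 * u)) ^ 2 := pow_le_pow_left₀ hZ.le hZu 2
  calc 2 * (32 * Z ^ 2) ≤ 2 * (32 * (C1 * (C1 * u)) ^ 2) := by linarith
    _ = 64 * C1 ^ 4 * u ^ 2 := by ring
    _ ≤ (K * (θ * η ^ 2)) * u ^ 2 := mul_le_mul_of_nonneg_right hKl (by positivity)
    _ = _ := by ring

/-- the number of the exceptional characters -/
theorem card_E {x m : ℕ} {P : Finset ℕ} {Z ε η : ℝ} (hZ : 0 < Z) (hη : 0 < η)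
    (hε : ε = η ^ 2 / (32 * Z ^ 2))
    (hB : ∑ f ∈ Icc 1 x, ∑ χ ∈ Pm f, ‖∑ p ∈ P, χ (p : ZMod f) / p‖ ^ (2 * m) ≤ Z ^ (4 * m))
    (E : Finset (Σ f : ℕ, DirichletCharacter ℂ f)) (hE : E ⊆ (Icc 1 x).sigma (fun f => Pm f))
    (hE2 : ∀ e ∈ E, ε ≤ ‖∑ b ∈ P, e.2 (b : ZMod e.1) / b‖) :
    (E.card : ℝ) ≤ Z ^ (4 * m) / (η ^ 2 / 32) ^ (2 * m) * Z ^ (4 * m) := by
  have hε0 : 0 < ε := by rw [hε]; positivity
  have h2 : (E.card : ℝ) * ε ^ (2 * m) ≤ Z ^ (4 * m) := by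
    refine le_trans ?_ hB
    rw [← sum_sigma (Icc 1 x) (fun f => Pm f)
      (fun e => ‖∑ p ∈ P, e.2 (p : ZMod e.1) / p‖ ^ (2 * m))]
    calc (E.card : ℝ) * ε ^ (2 * m) = ∑ _e ∈ E, ε ^ (2 * m) := by
          rw [sum_const, nsmul_eq_mul]
      _ ≤ ∑ e ∈ E, ‖∑ p ∈ P, e.2 (p : ZMod e.1) / p‖ ^ (2 * m) :=
          sum_le_sum fun e he => pow_le_pow_left₀ hε0.le (hE2 e he) _
      _ ≤ _ := sum_le_sum_of_subset_of_nonneg hE fun _ _ _ => by positivity
  rw [← le_div_iff₀ (by positivity)] at h2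
  refine h2.trans (le_of_eq ?_)
  rw [hε]
  have e1 : η ^ 2 / (32 * Z ^ 2) = (η ^ 2 / 32) / Z ^ 2 := by field_simp
  rw [e1, div_pow (η ^ 2 / 32) (Z ^ 2), ← pow_mul]
  have e2 : 2 * (2 * m) = 4 * m := by ring
  rw [e2]
  have e3 : (0 : ℝ) < (η ^ 2 / 32) ^ (2 * m) := by positivity
  have e4 : (0 : ℝ) < Z ^ (4 * m) := by positivity
  rw [div_div_eq_mul_div]
  ring

theorem exists_F (hM : S_MOM) (θ η : ℝ) (hθ : 0 < θ) (hη : 0 < η) (hη1 : η ≤ 1) :
    ∃ C : ℝ, 0 < C ∧ ∀ x y : ℕ, 2 ≤ y → y ≤ x → ∀ P : Finset ℕ, P ⊆ PR ⌊(y : ℝ) ^ θ⌋₊ y →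
      ∃ F : Finset ℕ, (F.card : ℝ) ≤ BD C x y ∧ (∀ f ∈ F, 2 ≤ f) ∧
      ∀ q : ℕ, 1 ≤ q → q ≤ x → (∀ f ∈ F, ¬ f ∣ q) →
        wt P ≤ wt (P.filter (fun p => p.Coprime q)) + η ∧
        ∀ k : ℕ, C * (log x / log y) ≤ k → ∀ a : (ZMod q)ˣ,
          |(Nat.totient q : ℝ) * Nk q k (P.filter (fun p => p.Coprime q)) a -
            wt (P.filter (fun p => p.Coprime q)) ^ k| ≤ η ^ k := by
  classical
  obtain ⟨C1, y0, hC1, hmom⟩ := mom_uni hM θ hθ
  obtain ⟨Cs, hCs, hsize⟩ := size_est C1 hC1 (η ^ 2 / 32) (by positivity)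
  obtain ⟨y2, hy2⟩ := scale θ hθ
  -- the trivial range
  set K : ℝ := 64 * C1 ^ 4 / (θ * η ^ 2) + (y0 : ℝ) + y2 + 1 with hK
  have hy00 : (0 : ℝ) ≤ y0 := Nat.cast_nonneg _
  have hy20 : (0 : ℝ) ≤ y2 := Nat.cast_nonneg _
  have hC10 : 0 < C1 := by linarith
  have hKa : 0 < 64 * C1 ^ 4 / (θ * η ^ 2) := by positivity
  have hK1 : 1 ≤ K := by linarith
  have hK0 : 0 < K := by linarith
  set c : ℝ := 6 / θ + 1 with hc
  have hc0 : 1 ≤ c := by
    have : 0 < 6 / θ := by positivity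
    linarith
  obtain ⟨Ct, hCt, htriv⟩ := triv_case K c hK1 (by linarith)
  refine ⟨max Ct (2 * Cs) + 4 * C1, by positivity, fun x y hy hyx P hPP => ?_⟩
  obtain ⟨hly, hu1, hxu, hx0⟩ := base_facts hy hyx
  have hBDm : ∀ D : ℝ, D ≤ max Ct (2 * Cs) → BD D x y ≤ BD (max Ct (2 * Cs) + 4 * C1) x y :=
    fun D hD => BD_mono (by linarith) hy hyx
  have hprime := PR_prime hPP
  by_cases hcase : (y : ℝ) ≤ (K * (log x / log y)) ^ c
  · -- all moduli but one are exceptional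
    refine ⟨Icc 2 x, ?_, fun f hf => (mem_Icc.1 hf).1, ?_⟩
    · have h1 := htriv x y hy hyx hcase
      have h2 : ((Icc 2 x).card : ℝ) ≤ x := by
        rw [Nat.card_Icc]
        exact_mod_cast (by omega : x + 1 - 2 ≤ x)
      have h4 : (1 : ℝ) ≤ x := by exact_mod_cast (by omega : 1 ≤ x)
      have h5 : (x : ℝ) ≤ (x : ℝ) ^ 2 := by nlinarith
      exact h2.trans (h5.trans (h1.trans (hBDm _ (le_max_left _ _))))
    · intro q hq hqx hF
      have hq1 : q = 1 := by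
        by_contra hne
        exact hF q (mem_Icc.2 ⟨by omega, hqx⟩) dvd_rfl
      subst hq1
      have hfil : P.filter (fun p => p.Coprime 1) = P :=
        filter_true_of_mem fun p _ => Nat.coprime_one_right p
      rw [hfil]
      refine ⟨by linarith, fun k _ a => ?_⟩
      exact (mod_one P k a).trans (by positivity)
  push Not at hcase
  set u := log (x : ℝ) / log y with hu
  have hKu1 : 1 ≤ K * u := by nlinarith
  have hKuc : K * u ≤ (K * u) ^ c := by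
    calc K * u = (K * u) ^ (1 : ℝ) := (Real.rpow_one _).symm
      _ ≤ _ := Real.rpow_le_rpow_of_exponent_le hKu1 hc0
  have hyK : K ≤ y := by nlinarith
  have hyy : y0 ≤ y := by
    have h1 : (y0 : ℝ) ≤ y := by linarith
    exact_mod_cast h1
  have hyy2 : y2 ≤ y := by
    have h1 : (y2 : ℝ) ≤ y := by linarith
    exact_mod_cast h1
  obtain ⟨m, hm2, hmu, hB⟩ := hmom x y hyy hy hyx
  set Z : ℝ := C1 * m with hZ
  have hm2r : (2 : ℝ) ≤ m := by exact_mod_cast hm2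
  have hZ1 : 1 ≤ Z := by rw [hZ]; nlinarith
  have hZ0 : 0 < Z := by linarith
  set ε : ℝ := η ^ 2 / (32 * Z ^ 2) with hε
  have hε0 : 0 < ε := by positivity
  -- the size of `z`
  obtain ⟨hz2, hzy, -⟩ := hy2 y hyy2
  set z := ⌊(y : ℝ) ^ θ⌋₊ with hz
  have hz1 : (1 : ℝ) < z := by exact_mod_cast (by omega : 1 < z)
  have hlz : 0 < log (z : ℝ) := Real.log_pos hz1
  have hy0 : (0 : ℝ) < y := by linarith
  have hlzy : θ / 2 * log y ≤ log (z : ℝ) := by
    have h1 := Real.log_le_log (by positivity) hzy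
    rwa [Real.log_rpow hy0] at h1
  have hzK : K * u ^ 3 ≤ z := by
    have h1 : (K * u) ^ (3 : ℝ) ≤ (y : ℝ) ^ (θ / 2) := by
      have h2 : ((K * u) ^ c) ^ (θ / 2) ≤ (y : ℝ) ^ (θ / 2) :=
        Real.rpow_le_rpow (by positivity) hcase.le (by positivity)
      rw [← Real.rpow_mul (by positivity)] at h2
      have h3 : (3 : ℝ) ≤ c * (θ / 2) := by
        rw [hc]
        have : (6 / θ + 1) * (θ / 2) = 3 + θ / 2 := by field_simp; ring
        rw [this]; linarith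
      exact (Real.rpow_le_rpow_of_exponent_le hKu1 h3).trans h2
    have h2 : K * u ^ 3 ≤ (K * u) ^ (3 : ℝ) := by
      have h3 : (K * u) ^ (3 : ℝ) = (K * u) ^ 3 := by
        rw [← Real.rpow_natCast]; norm_num
      rw [h3, mul_pow]
      apply mul_le_mul_of_nonneg_right _ (by positivity)
      exact le_self_pow₀ hK1 (by norm_num)
    exact h2.trans (h1.trans hzy)
  have hdv : ∀ n : ℕ, 1 ≤ n → n ≤ x → dv P n ≤ ε := by
    intro n hn hnx
    refine (dv_le x z y hz2 P hPP n hn hnx).trans ?_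
    have h2 : log (x : ℝ) / log z ≤ 2 / θ * u := by
      rw [div_le_iff₀ hlz]
      calc log (x : ℝ) = 2 / θ * u * (θ / 2 * log y) := by rw [hxu]; field_simp
        _ ≤ 2 / θ * u * log z := mul_le_mul_of_nonneg_left hlzy (by positivity)
    have hupos : 0 < u := by linarith
    have h3 : log (x : ℝ) / log z / z ≤ (2 / θ * u) / (K * u ^ 3) := by
      apply div_le_div₀ (by positivity) h2 (by positivity) hzK
    refine h3.trans ?_
    have h4 : (2 / θ * u) / (K * u ^ 3) = 2 / (θ * K * u ^ 2) := by field_simp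
    rw [h4, hε]
    exact num_dv hθ hη hC10 hupos hK0 hZ0 (by
      rw [hZ]
      exact mul_le_mul_of_nonneg_left hmu hC10.le) (by linarith)
  have hεη : ε ≤ η / 2 := by
    rw [hε, div_le_iff₀ (by positivity)]
    have h1 : (1 : ℝ) ≤ Z ^ 2 := by nlinarith
    nlinarith
  -- the exceptional characters
  set E := ((Icc 1 x).sigma (fun f => Pm f)).filter
    (fun e : (Σ f : ℕ, DirichletCharacter ℂ f) => ε ≤ ‖∑ b ∈ P, e.2 (b : ZMod e.1) / b‖) with hE
  have hEc : (E.card : ℝ) ≤ BD (2 * Cs) x y := by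
    have h3 := card_E hZ0 hη hε (hB P hPP) E (filter_subset _ _) (fun e he => (mem_filter.1 he).2)
    obtain ⟨s1, -⟩ := hsize x y m hy hyx hm2 hmu (η ^ 2 / 32) le_rfl
    obtain ⟨s2, -⟩ := hsize x y m hy hyx hm2 hmu 1 (by nlinarith)
    rw [one_pow, div_one] at s2
    calc (E.card : ℝ) ≤ _ := h3
      _ ≤ BD Cs x y * BD Cs x y := mul_le_mul s1 s2 (by positivity) (BD_pos _ _ _).le
      _ = BD (2 * Cs) x y := by rw [BD_mul]; congr 1; ring
  refine ⟨(E.image (fun e => e.1)).filter (fun f => 2 ≤ f), ?_, fun f hf => (mem_filter.1 hf).2, ?_⟩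
  · have h1 : ((E.image (fun e => e.1)).filter (fun f => 2 ≤ f)).card ≤ E.card :=
      (card_filter_le _ _).trans card_image_le
    have h2 : ((((E.image (fun e => e.1)).filter (fun f => 2 ≤ f)).card : ℕ) : ℝ) ≤ E.card := by
      exact_mod_cast h1
    exact h2.trans (hEc.trans (hBDm _ (le_max_right _ _)))
  intro q hq hqx hF
  have inst : NeZero q := ⟨by omega⟩
  set Pq := P.filter (fun p => p.Coprime q) with hPq
  have hPqP : Pq ⊆ P := filter_subset _ _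
  have hcop : ∀ p ∈ Pq, p.Coprime q := fun p hp => (mem_filter.1 hp).2
  have hwq : wt P ≤ wt Pq + dv P q := by
    unfold dv wt
    rw [hPq, ← sum_filter_add_sum_filter_not P (fun p => p.Coprime q)]
    apply add_le_add_right
    apply le_of_eq
    apply sum_congr _ fun _ _ => rfl
    ext p
    rw [mem_filter, mem_filter]
    constructor
    · rintro ⟨h1, h2⟩
      refine ⟨h1, ?_⟩
      by_contra h3
      exact h2 ((Nat.Prime.coprime_iff_not_dvd (hprime p h1)).2 h3)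
    · rintro ⟨h1, h2⟩
      exact ⟨h1, fun h3 => (Nat.Prime.coprime_iff_not_dvd (hprime p h1)).1 h3 h2⟩
  have hwη : wt P ≤ wt Pq + η := by
    have h1 := hdv q hq hqx
    linarith
  refine ⟨hwη, fun k hk a => ?_⟩
  have hk4 : 4 * m ≤ k := by
    have h1 : 4 * (m : ℝ) ≤ k := by
      have h2 : 4 * C1 * u ≤ (max Ct (2 * Cs) + 4 * C1) * u := by
        apply mul_le_mul_of_nonneg_right _ (by linarith)
        have : 0 < max Ct (2 * Cs) := lt_max_of_lt_left hCt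
        linarith
      nlinarith
    exact_mod_cast h1
  have hmq : ∑ χ : DirichletCharacter ℂ q, ‖∑ p ∈ Pq, χ (p : ZMod q) / p‖ ^ (2 * m) ≤
      Z ^ (4 * m) :=
    mom_one hq hqx (fun p hp => ⟨hprime p (hPqP hp), hcop p hp⟩) (hB Pq (hPqP.trans hPP)) inst
  have hχ : ∀ χ : DirichletCharacter ℂ q, χ ≠ 1 → ‖∑ p ∈ Pq, χ (p : ZMod q) / p‖ ≤ 2 * ε := by
    intro χ hχ1
    have h1 : ∑ p ∈ Pq, χ (p : ZMod q) / (p : ℂ) = ∑ p ∈ P, χ (p : ZMod q) / (p : ℂ) := by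
      apply sum_subset hPqP
      intro p hp hpn
      have h2 : ¬ p.Coprime q := fun h => hpn (mem_filter.2 ⟨hp, h⟩)
      rw [χ.map_nonunit (fun h => h2 ((ZMod.isUnit_iff_coprime p q).1 h)), zero_div]
    rw [h1]
    refine (sum_prim χ P hprime).trans ?_
    have hcn : χ.conductor ∣ q := χ.conductor_dvd_level
    have hc0' : 0 < χ.conductor := Nat.pos_of_dvd_of_pos hcn (by omega)
    have hcx : χ.conductor ≤ x := (Nat.le_of_dvd (by omega) hcn).trans hqx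
    have hc2 : 2 ≤ χ.conductor := by
      by_contra h
      have h3 : χ.conductor = 1 := by omega
      exact hχ1 (DirichletCharacter.eq_one_iff_conductor_eq_one.2 h3)
    have h2 : ‖∑ b ∈ P, χ.primitiveCharacter (b : ZMod χ.conductor) / b‖ ≤ ε := by
      by_contra hcon
      push Not at hcon
      apply hF χ.conductor _ hcn
      rw [mem_filter, mem_image]
      refine ⟨⟨⟨χ.conductor, χ.primitiveCharacter⟩, ?_, rfl⟩, hc2⟩
      rw [hE, mem_filter, mem_sigma, mem_Icc, mem_Pm]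
      exact ⟨⟨⟨hc0', hcx⟩, χ.primitiveCharacter_isPrimitive⟩, hcon.le⟩
    have h3 := hdv q hq hqx
    linarith
  refine (err_bound Pq hcop k m a (Z ^ (4 * m)) (2 * ε) (by positivity) (by omega) hmq hχ).trans ?_
  rw [hε]
  exact fin_ineq hZ1 hη hη1 hk4

end Pool.Agent.H482.PP2
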